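import Mathlib

/-!
# MP_e9e8de: equality of coded open sets is `Π⁰₂` or not Borel

For every second countable space `X` with an enumerated basis `U`, if the equivalence relation
`x E y ↔ ⋃ n, U (x n) = ⋃ n, U (y n)` on Baire space is Borel, then it is `Π⁰₂` (`G_δ`).

Proof idea: `C = {y | U n₀ ⊆ ⋃ k, U (y k)}` is Borel. If it is not `G_δ`, a Hurewicz scheme gives
points `b s ∈ C` indexed by finite sequences, converging along infinite branches to points outside
`C`. For a tree `T` the intersection of the open sets coded by the closure of `{b s | s ∈ T}` is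
open because the closure is compact, and it contains `U n₀` iff `T` has no infinite branch. Hence
well-foundedness of trees would be Borel, which is refuted by a diagonal argument.
-/

namespace Pool.Agent.Results.MP_e9e8de_lc.OpenCodes

open Set MeasureTheory

/-- The equivalence relation `E` on Baire space: `x` and `y` code the same open set. -/
def codeEq {X : Type*} (U : ℕ → Set X) : Set ((ℕ → ℕ) × (ℕ → ℕ)) :=
  {p | (⋃ n, U (p.1 n)) = ⋃ n, U (p.2 n)}

/-! ### Agreement and initial segments -/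

/-- `x` and `y` agree below `k`. -/
def Agree {α : Type} (k : ℕ) (x y : ℕ → α) : Prop := ∀ i < k, x i = y i

lemma Agree.symm {α : Type} {k : ℕ} {x y : ℕ → α} (h : Agree k x y) : Agree k y x :=
  fun i hi => (h i hi).symm

lemma Agree.trans {α : Type} {k : ℕ} {x y z : ℕ → α} (h : Agree k x y) (h' : Agree k y z) :
    Agree k x z := fun i hi => (h i hi).trans (h' i hi)

lemma Agree.mono {α : Type} {k l : ℕ} {x y : ℕ → α} (h : Agree k x y) (hl : l ≤ k) :
    Agree l x y := fun i hi => h i (lt_of_lt_of_le hi hl)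

/-- The initial segment of length `k`, in reversed order. -/
def pre {α : Type} (x : ℕ → α) : ℕ → List α
  | 0 => []
  | k + 1 => x k :: pre x k

lemma pre_length {α : Type} (x : ℕ → α) (k : ℕ) : (pre x k).length = k := by
  induction k with
  | zero => rfl
  | succ k ih => simp [pre, ih]

lemma pre_eq_iff {α : Type} {x y : ℕ → α} {k : ℕ} : pre x k = pre y k ↔ Agree k x y := by
  induction k with
  | zero => simp [pre, Agree]
  | succ k ih =>
    simp only [pre, List.cons.injEq, ih]
    constructor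
    · rintro ⟨h1, h2⟩ i hi
      rcases Nat.lt_succ_iff_lt_or_eq.1 hi with h | h
      · exact h2 i h
      · rw [h]; exact h1
    · intro h
      exact ⟨h k (Nat.lt_succ_self k), fun i hi => h i (Nat.lt_succ_of_lt hi)⟩

lemma suffix_pre {α : Type} {x : ℕ → α} {k : ℕ} {t : List α} (h : t <:+ pre x k) :
    t = pre x t.length := by
  induction k with
  | zero =>
    have : t = [] := List.suffix_nil.1 h
    rw [this]; rfl
  | succ k ih =>
    rcases List.suffix_cons_iff.1 h with h | h
    · rw [h]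
      simp [pre, pre_length]
    · exact ih h

lemma pre_suffix {α : Type} (x : ℕ → α) {i k : ℕ} (h : i ≤ k) : pre x i <:+ pre x k := by
  induction h with
  | refl => exact List.suffix_rfl
  | step _ ih => exact ih.trans (List.suffix_cons _ _)

lemma suffix_cases {α : Type} {s t : List α} (h : s <:+ t) : t = s ∨ ∃ n, (n :: s) <:+ t := by
  induction t with
  | nil => left; exact (List.suffix_nil.1 h).symm
  | cons a t ih =>
    rcases List.suffix_cons_iff.1 h with h | h
    · exact Or.inl h.symm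
    · rcases ih h with h2 | ⟨n, hn⟩
      · right; subst h2; exact ⟨a, List.suffix_rfl⟩
      · right; exact ⟨n, hn.trans (List.suffix_cons _ _)⟩

lemma exists_agree {α : Type} [TopologicalSpace α] {s : Set (ℕ → α)} (hs : IsOpen s) {x : ℕ → α}
    (hx : x ∈ s) : ∃ m, ∀ y, Agree m x y → y ∈ s := by
  obtain ⟨I, u, hu, hsub⟩ := isOpen_pi_iff.1 hs x hx
  refine ⟨I.sup id + 1, fun y hy => hsub ?_⟩
  intro i hi
  have : i ≤ I.sup id := Finset.le_sup (f := id) hi
  rw [← hy i (by omega)]
  exact (hu i hi).2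

lemma isOpen_agree {α : Type} [TopologicalSpace α] [DiscreteTopology α] (k : ℕ) (x : ℕ → α) :
    IsOpen {y : ℕ → α | Agree k x y} := by
  have : {y : ℕ → α | Agree k x y} = ⋂ i ∈ Finset.range k, (fun y : ℕ → α => y i) ⁻¹' {x i} := by
    ext y
    simp [Agree, eq_comm]
  rw [this]
  exact isOpen_biInter_finset (fun i _ => (isOpen_discrete _).preimage (continuous_apply i))

lemma continuous_agree {α : Type} [TopologicalSpace α] [DiscreteTopology α]
    {f : (ℕ → ℕ) → (ℕ → α)} (hf : Continuous f) (x : ℕ → ℕ) (k : ℕ) :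
    ∃ m, ∀ y, Agree m x y → Agree k (f x) (f y) :=
  exists_agree ((isOpen_agree k (f x)).preimage hf) (fun _ _ => rfl)

/-! ### The Hurewicz scheme -/

theorem hurewicz {C : Set (ℕ → ℕ)} (hC : MeasurableSet C) (hn : ¬ IsGδ C) :
    ∃ b : List ℕ → (ℕ → ℕ), (∀ s, b s ∈ C) ∧
      (∀ s n t, (n :: s) <:+ t → Agree n (b s) (b t)) ∧
      ∀ α : ℕ → ℕ, ∃ y, y ∉ C ∧ ∀ J, ∃ I, ∀ i, I ≤ i → Agree J (b (pre α i)) y := by
  classical
  have han : AnalyticSet Cᶜ := hC.compl.analyticSet
  rw [AnalyticSet] at han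
  obtain ⟨f, hf, hr⟩ : ∃ f : (ℕ → ℕ) → (ℕ → ℕ), Continuous f ∧ range f = Cᶜ := by
    rcases han with h | h
    · exfalso
      apply hn
      rw [compl_empty_iff.1 h]
      exact IsGδ.univ
    · exact h
  have hfC : ∀ z, f z ∉ C := fun z => by
    have : f z ∈ range f := ⟨z, rfl⟩
    rw [hr] at this
    exact this
  -- small cylinders
  let small : List ℕ → Set (ℕ → ℕ) → Prop := fun l S =>
    IsGδ Sᶜ ∧ S ⊆ Cᶜ ∧ ∀ z, pre z l.length = l → f z ∈ S
  let Sg : List ℕ → Set (ℕ → ℕ) := fun l => if h : ∃ S, small l S then h.choose else ∅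
  have hSg1 : ∀ l, IsGδ (Sg l)ᶜ := by
    intro l
    by_cases h : ∃ S, small l S
    · have : Sg l = h.choose := dif_pos h
      rw [this]; exact h.choose_spec.1
    · have : Sg l = ∅ := dif_neg h
      rw [this, compl_empty]; exact IsGδ.univ
  have hSg2 : ∀ l, Sg l ⊆ Cᶜ := by
    intro l
    by_cases h : ∃ S, small l S
    · have : Sg l = h.choose := dif_pos h
      rw [this]; exact h.choose_spec.2.1
    · have : Sg l = ∅ := dif_neg h
      rw [this]; exact empty_subset _
  have hSg3 : ∀ l, (∃ S, small l S) → ∀ z, pre z l.length = l → f z ∈ Sg l := by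
    intro l h
    have : Sg l = h.choose := dif_pos h
    rw [this]; exact h.choose_spec.2.2
  let N : Set (ℕ → ℕ) := {z | ∀ m, ¬ ∃ S, small (pre z m) S}
  have hnotN : ∀ z, z ∉ N → ∃ l, f z ∈ Sg l := by
    intro z hz
    have hz' : ¬ ∀ m, ¬ ∃ S, small (pre z m) S := hz
    push Not at hz'
    obtain ⟨m, hm⟩ := hz'
    exact ⟨pre z m, hSg3 _ hm z (by rw [pre_length])⟩
  obtain ⟨z0, hz0⟩ : N.Nonempty := by
    by_contra hcon
    rw [not_nonempty_iff_eq_empty] at hcon
    apply hn
    have : C = ⋂ l, (Sg l)ᶜ := by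
      ext y
      constructor
      · intro hy
        refine mem_iInter.2 (fun l hl => hSg2 l hl hy)
      · intro hy
        by_contra hyC
        have : y ∈ range f := by rw [hr]; exact hyC
        obtain ⟨z, rfl⟩ := this
        obtain ⟨l, hl⟩ := hnotN z (by rw [hcon]; exact notMem_empty z)
        exact mem_iInter.1 hy l hl
    rw [this]
    exact IsGδ.iInter hSg1
  have claimB : ∀ z ∈ N, ∀ m, ∃ b ∈ C, ∀ k, ∃ z' ∈ N, Agree m z z' ∧ Agree k b (f z') := by
    intro z hz m
    by_contra hcon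
    push Not at hcon
    apply hz m
    let S0 : Set (ℕ → ℕ) := closure (f '' {z' | z' ∈ N ∧ Agree m z z'})
    refine ⟨S0 ∪ ⋃ l, Sg l, ?_, ?_, ?_⟩
    · rw [compl_union, compl_iUnion]
      exact isClosed_closure.isOpen_compl.isGδ.inter (IsGδ.iInter hSg1)
    · rintro y (hy | hy)
      · intro hyC
        obtain ⟨k, hk⟩ := hcon y hyC
        obtain ⟨a, ha, z', ⟨h1, h2⟩, rfl⟩ := mem_closure_iff.1 hy _ (isOpen_agree k y) (fun _ _ => rfl)
        exact hk z' h1 h2 ha
      · obtain ⟨l, hl⟩ := mem_iUnion.1 hy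
        exact hSg2 l hl
    · intro w hw
      rw [pre_length, pre_eq_iff] at hw
      by_cases hwN : w ∈ N
      · exact Or.inl (subset_closure ⟨w, ⟨hwN, hw.symm⟩, rfl⟩)
      · obtain ⟨l, hl⟩ := hnotN w hwN
        exact Or.inr (mem_iUnion.2 ⟨l, hl⟩)
  choose! B hB1 hB2 using claimB
  -- children
  have hchild : ∀ (p : {p : (ℕ → ℕ) × ℕ // p.1 ∈ N}) (n : ℕ),
      ∃ q : {p : (ℕ → ℕ) × ℕ // p.1 ∈ N}, Agree p.1.2 p.1.1 q.1.1 ∧ p.1.2 + 1 ≤ q.1.2 ∧
        Agree n (B p.1.1 p.1.2) (f q.1.1) ∧
        ∀ w, Agree q.1.2 q.1.1 w → Agree (max n (p.1.2 + 1)) (f q.1.1) (f w) := by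
    rintro ⟨⟨z, m⟩, hz⟩ n
    obtain ⟨z', h1, h2, h3⟩ := hB2 z hz m n
    obtain ⟨m', hm'⟩ := continuous_agree hf z' (max n (m + 1))
    exact ⟨⟨(z', max m' (m + 1)), h1⟩, h2, le_max_right _ _, h3,
      fun w hw => hm' w (hw.mono (le_max_left _ _))⟩
  choose child hc1 hc2 hc3 hc4 using hchild
  let node : List ℕ → {p : (ℕ → ℕ) × ℕ // p.1 ∈ N} := fun s =>
    List.rec ⟨(z0, 0), hz0⟩ (fun n _ q => child q n) s
  have hnode : ∀ n s, node (n :: s) = child (node s) n := fun _ _ => rfl
  have hext : ∀ s t, s <:+ t → Agree (node s).1.2 (node s).1.1 (node t).1.1 ∧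
      (node s).1.2 ≤ (node t).1.2 := by
    intro s t
    induction t with
    | nil =>
      intro h
      rw [List.suffix_nil.1 h]
      exact ⟨fun _ _ => rfl, le_rfl⟩
    | cons a t ih =>
      intro h
      rcases List.suffix_cons_iff.1 h with h | h
      · rw [h]; exact ⟨fun _ _ => rfl, le_rfl⟩
      · obtain ⟨h1, h2⟩ := ih h
        rw [hnode]
        have h3 := hc2 (node t) a
        exact ⟨h1.trans ((hc1 (node t) a).mono h2), by omega⟩
  let b : List ℕ → (ℕ → ℕ) := fun s => B (node s).1.1 (node s).1.2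
  refine ⟨b, fun s => hB1 _ (node s).2 _, ?_, ?_⟩
  · intro s n t hst
    obtain ⟨h1, h2⟩ := hext (n :: s) t hst
    obtain ⟨w, hw1, hw2, hw3⟩ := hB2 _ (node t).2 (node t).1.2 n
    rw [hnode] at h1 h2
    have h3 : Agree (child (node s) n).1.2 (child (node s) n).1.1 w := h1.trans (hw2.mono h2)
    have h4 := (hc4 (node s) n w h3).mono (le_max_left n _)
    exact ((hc3 (node s) n).trans h4).trans hw3.symm
  · intro α
    have hlen : ∀ i, i ≤ (node (pre α i)).1.2 := by
      intro i
      induction i with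
      | zero => exact Nat.zero_le _
      | succ i ih =>
        have := hc2 (node (pre α i)) (α i)
        show i + 1 ≤ (node (α i :: pre α i)).1.2
        rw [hnode]
        omega
    let zi : ℕ → ℕ := fun j => (node (pre α (j + 1))).1.1 j
    have hzi : ∀ i, Agree (node (pre α i)).1.2 (node (pre α i)).1.1 zi := by
      intro i j hj
      show _ = (node (pre α (j + 1))).1.1 j
      rcases le_total i (j + 1) with h | h
      · exact (hext _ _ (pre_suffix α h)).1 j hj
      · have h1 := (hext _ _ (pre_suffix α h)).1 j (lt_of_lt_of_le (Nat.lt_succ_self j) (hlen _))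
        exact h1.symm
    refine ⟨f zi, hfC zi, fun J => ⟨J + 1, fun i hi => ?_⟩⟩
    obtain ⟨i, rfl⟩ : ∃ i', i = i' + 1 := ⟨i - 1, by omega⟩
    obtain ⟨w, hw1, hw2, hw3⟩ := hB2 _ (node (pre α (i + 1))).2 (node (pre α (i + 1))).1.2 J
    have h1 := hc4 (node (pre α i)) (α i) w hw2
    have h2 := hc4 (node (pre α i)) (α i) zi (hzi (i + 1))
    have h3 := hlen i
    have h4 : J ≤ max (α i) ((node (pre α i)).1.2 + 1) := by
      apply le_trans _ (le_max_right _ _)
      omega
    exact (hw3.trans (h1.symm.mono h4)).trans (h2.mono h4)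

/-! ### Trees -/

/-- The tree (of reversed finite sequences) coded by `c` at `x`. -/
def tree (c x : ℕ → Bool) : Set (List ℕ) :=
  {s | ∀ t, t <:+ s → c (Encodable.encode ((pre x t.length, t) : List Bool × List ℕ)) = true}

lemma tree_suffix {c x : ℕ → Bool} {s t : List ℕ} (h : s ∈ tree c x) (ht : t <:+ s) :
    t ∈ tree c x := fun u hu => h u (hu.trans ht)

/-- An analytic set is coded by a tree. -/
lemma exists_code {S : Set (ℕ → Bool)} (hS : AnalyticSet S) :
    ∃ c : ℕ → Bool, ∀ x, x ∈ S ↔ ∃ α : ℕ → ℕ, ∀ i, pre α i ∈ tree c x := by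
  classical
  rw [AnalyticSet] at hS
  rcases hS with rfl | ⟨g, hg, rfl⟩
  · refine ⟨fun _ => false, fun x => ⟨fun h => absurd h (notMem_empty x), ?_⟩⟩
    rintro ⟨α, hα⟩
    have := hα 0 [] (List.nil_suffix)
    simp at this
  · refine ⟨fun n => match (Encodable.decode n : Option (List Bool × List ℕ)) with
      | some (σ, s) => decide (∃ β : ℕ → ℕ, pre β s.length = s ∧ pre (g β) s.length = σ)
      | none => false, fun x => ⟨?_, ?_⟩⟩
    · rintro ⟨β, rfl⟩
      refine ⟨β, fun i t ht => ?_⟩
      simp only [Encodable.encodek]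
      rw [decide_eq_true_eq]
      exact ⟨β, (suffix_pre ht).symm, rfl⟩
    · rintro ⟨α, hα⟩
      have hα' : ∀ i, ∃ β : ℕ → ℕ, Agree i β α ∧ Agree i (g β) x := by
        intro i
        have := hα i (pre α i) List.suffix_rfl
        simp only [Encodable.encodek] at this
        rw [decide_eq_true_eq] at this
        obtain ⟨β, h1, h2⟩ := this
        rw [pre_length] at h1 h2
        exact ⟨β, pre_eq_iff.1 h1, pre_eq_iff.1 h2⟩
      refine ⟨α, ?_⟩
      funext j
      obtain ⟨m, hm⟩ := continuous_agree hg α (j + 1)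
      obtain ⟨β, h1, h2⟩ := hα' (max m (j + 1))
      have h3 := hm β (h1.symm.mono (le_max_left _ _)) j (Nat.lt_succ_self j)
      rw [h3]
      exact h2 j (lt_of_lt_of_le (Nat.lt_succ_self j) (le_max_right _ _))

lemma measurable_tree (t : List ℕ) : MeasurableSet {c : ℕ → Bool | t ∈ tree c c} := by
  have hpre : ∀ k (σ : List Bool), MeasurableSet {c : ℕ → Bool | pre c k = σ} := by
    intro k
    induction k with
    | zero =>
      intro σ
      by_cases h : σ = []
      · have : {c : ℕ → Bool | pre c 0 = σ} = univ := by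
          ext c; simp [pre, h]
        rw [this]; exact MeasurableSet.univ
      · have : {c : ℕ → Bool | pre c 0 = σ} = ∅ := by
          ext c
          simp only [pre, mem_ofPred_eq, mem_empty_iff_false, iff_false]
          exact fun h' => h h'.symm
        rw [this]; exact MeasurableSet.empty
    | succ k ih =>
      intro σ
      cases σ with
      | nil =>
        have : {c : ℕ → Bool | pre c (k + 1) = []} = ∅ := by
          ext c; simp [pre]
        rw [this]; exact MeasurableSet.empty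
      | cons a σ =>
        have : {c : ℕ → Bool | pre c (k + 1) = a :: σ} =
            (fun c : ℕ → Bool => c k) ⁻¹' {a} ∩ {c | pre c k = σ} := by
          ext c; simp [pre]
        rw [this]
        exact ((measurable_pi_apply k) (MeasurableSet.singleton a)).inter (ih σ)
  have hone : ∀ t' : List ℕ, MeasurableSet {c : ℕ → Bool |
      c (Encodable.encode ((pre c t'.length, t') : List Bool × List ℕ)) = true} := by
    intro t'
    have : {c : ℕ → Bool | c (Encodable.encode ((pre c t'.length, t') : List Bool × List ℕ)) = true}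
        = ⋃ σ : List Bool, {c | pre c t'.length = σ} ∩
          (fun c : ℕ → Bool => c (Encodable.encode ((σ, t') : List Bool × List ℕ))) ⁻¹' {true} := by
      ext c
      simp only [mem_ofPred_eq, mem_iUnion, mem_inter_iff, mem_preimage, mem_singleton_iff]
      constructor
      · intro h; exact ⟨_, rfl, h⟩
      · rintro ⟨σ, h1, h2⟩; rw [h1]; exact h2
    rw [this]
    exact MeasurableSet.iUnion (fun σ => (hpre _ σ).inter
      ((measurable_pi_apply _) (MeasurableSet.singleton true)))
  have : {c : ℕ → Bool | t ∈ tree c c} = ⋂ t' : List ℕ, ⋂ _ : t' <:+ t, {c : ℕ → Bool |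
      c (Encodable.encode ((pre c t'.length, t') : List Bool × List ℕ)) = true} := by
    ext c
    simp [tree]
  rw [this]
  exact MeasurableSet.iInter (fun t' => MeasurableSet.iInter (fun _ => hone t'))

/-! ### The main argument -/

section Main

variable {X : Type*} [TopologicalSpace X] {U : ℕ → Set X}

/-- Prepending an entry. -/
def consSeq (n : ℕ) (y : ℕ → ℕ) : ℕ → ℕ
  | 0 => n
  | k + 1 => y k

omit [TopologicalSpace X] in
lemma mem_codeEq_cons {n : ℕ} {y : ℕ → ℕ} :
    (consSeq n y, y) ∈ codeEq U ↔ U n ⊆ ⋃ k, U (y k) := by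
  have h : (⋃ k, U (consSeq n y k)) = U n ∪ ⋃ k, U (y k) := by
    ext p
    simp only [mem_iUnion, mem_union]
    constructor
    · rintro ⟨k, hk⟩
      cases k with
      | zero => exact Or.inl hk
      | succ k => exact Or.inr ⟨k, hk⟩
    · rintro (h | ⟨k, hk⟩)
      · exact ⟨0, h⟩
      · exact ⟨k + 1, hk⟩
  show (⋃ k, U (consSeq n y k)) = ⋃ k, U (y k) ↔ _
  rw [h, union_eq_right]

lemma measurable_consSeq (n : ℕ) : Measurable (consSeq n) := by
  rw [measurable_pi_iff]
  intro k
  cases k with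
  | zero => exact measurable_const
  | succ k => exact measurable_pi_apply k

/-- The code of the intersection of the open sets coded along the tree. -/
def Acode (U : ℕ → Set X) (b : List ℕ → (ℕ → ℕ)) (T : Set (List ℕ)) : Set ℕ :=
  {m | ∃ (F : Finset ℕ) (J : ℕ), (∀ t ∈ T, ∃ j < J, b t j ∈ F) ∧ ∀ k ∈ F, U m ⊆ U k}

lemma cover_iff (hU : TopologicalSpace.IsTopologicalBasis (range U)) {n₀ : ℕ}
    {b : List ℕ → (ℕ → ℕ)} (hb1 : ∀ s, U n₀ ⊆ ⋃ k, U (b s k))
    (hb2 : ∀ s n t, (n :: s) <:+ t → Agree n (b s) (b t))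
    (hb3 : ∀ α : ℕ → ℕ, ∃ y : ℕ → ℕ, (¬ U n₀ ⊆ ⋃ k, U (y k)) ∧
      ∀ J, ∃ I, ∀ i, I ≤ i → Agree J (b (pre α i)) y)
    {T : Set (List ℕ)} (hT : ∀ s t, s ∈ T → t <:+ s → t ∈ T) :
    U n₀ ⊆ (⋃ m ∈ Acode U b T, U m) ↔ ¬ ∃ α : ℕ → ℕ, ∀ i, pre α i ∈ T := by
  classical
  constructor
  · rintro hsub ⟨α, hα⟩
    obtain ⟨y, hy1, hy2⟩ := hb3 α
    obtain ⟨p, hp1, hp2⟩ := not_subset.1 hy1
    obtain ⟨m, hm, hpm⟩ := mem_iUnion₂.1 (hsub hp1)
    obtain ⟨F, J, hF, hFU⟩ := hm
    obtain ⟨I, hI⟩ := hy2 J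
    obtain ⟨j, hj, hjF⟩ := hF _ (hα I)
    rw [hI I le_rfl j hj] at hjF
    exact hp2 (mem_iUnion.2 ⟨j, hFU _ hjF hpm⟩)
  · intro hno p hp
    have hgood : ∃ (F : Finset ℕ) (J : ℕ), (∀ k ∈ F, p ∈ U k) ∧ ∀ t ∈ T, ∃ j < J, b t j ∈ F := by
      by_contra hbad
      -- bad nodes
      let Bad : List ℕ → Prop := fun s => s ∈ T ∧ ¬ ∃ (F : Finset ℕ) (J : ℕ),
        (∀ k ∈ F, p ∈ U k) ∧ ∀ t ∈ T, s <:+ t → ∃ j < J, b t j ∈ F
      have hroot : Bad [] := by
        refine ⟨?_, ?_⟩
        · by_contra hnil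
          apply hbad
          refine ⟨∅, 0, by simp, fun t ht => ?_⟩
          exact absurd (hT t [] ht List.nil_suffix) hnil
        · rintro ⟨F, J, h1, h2⟩
          exact hbad ⟨F, J, h1, fun t ht => h2 t ht List.nil_suffix⟩
      have hstep : ∀ s, Bad s → ∃ n, Bad (n :: s) := by
        rintro s ⟨hsT, hs⟩
        by_contra hcon
        push Not at hcon
        apply hs
        obtain ⟨j, hj⟩ := mem_iUnion.1 (hb1 s hp)
        have hch : ∀ n, ∃ (F : Finset ℕ) (J : ℕ), (∀ k ∈ F, p ∈ U k) ∧
            ∀ t ∈ T, (n :: s) <:+ t → ∃ j < J, b t j ∈ F := by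
          intro n
          by_cases hnT : (n :: s) ∈ T
          · by_contra h
            exact hcon n ⟨hnT, h⟩
          · exact ⟨∅, 0, by simp, fun t ht hst => absurd (hT t _ ht hst) hnT⟩
        choose F J hF1 hF2 using hch
        refine ⟨insert (b s j) ((Finset.range (j + 1)).biUnion F),
          (Finset.range (j + 1)).sup J + (j + 1), ?_, ?_⟩
        · intro k hk
          rcases Finset.mem_insert.1 hk with rfl | hk
          · exact hj
          · obtain ⟨n, _, hn⟩ := Finset.mem_biUnion.1 hk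
            exact hF1 n k hn
        · intro t ht hst
          rcases suffix_cases hst with rfl | ⟨n, hn⟩
          · exact ⟨j, by omega, Finset.mem_insert_self _ _⟩
          · rcases Nat.lt_or_ge j n with h | h
            · refine ⟨j, by omega, ?_⟩
              rw [← hb2 s n t hn j h]
              exact Finset.mem_insert_self _ _
            · obtain ⟨i, hi, hiF⟩ := hF2 n t ht hn
              have hmem : n ∈ Finset.range (j + 1) := Finset.mem_range.2 (by omega)
              have : J n ≤ (Finset.range (j + 1)).sup J := Finset.le_sup hmem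
              exact ⟨i, by omega, Finset.mem_insert_of_mem (Finset.mem_biUnion.2 ⟨n, hmem, hiF⟩)⟩
      choose! nx hnx using hstep
      let st : ℕ → List ℕ := fun i => Nat.rec [] (fun _ s => nx s :: s) i
      have hst : ∀ i, Bad (st i) := by
        intro i
        induction i with
        | zero => exact hroot
        | succ i ih => exact hnx _ ih
      apply hno
      refine ⟨fun i => nx (st i), fun i => ?_⟩
      have : ∀ i, pre (fun i => nx (st i)) i = st i := by
        intro i
        induction i with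
        | zero => rfl
        | succ i ih =>
          show nx (st i) :: pre _ i = nx (st i) :: st i
          rw [ih]
      rw [this]
      exact (hst i).1
    obtain ⟨F, J, hF1, hF2⟩ := hgood
    have hopen : IsOpen (⋂ k ∈ F, U k) :=
      isOpen_biInter_finset (fun k _ => hU.isOpen ⟨k, rfl⟩)
    obtain ⟨_, ⟨m, rfl⟩, hpm, hm⟩ := hU.exists_subset_of_mem_open
      (a := p) (by simpa using hF1) hopen
    refine mem_iUnion₂.2 ⟨m, ⟨F, J, hF2, fun k hk => hm.trans ?_⟩, hpm⟩
    exact biInter_subset_of_mem hk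

theorem isGδ_of_measurable (hU : TopologicalSpace.IsTopologicalBasis (range U))
    (hE : MeasurableSet (codeEq U)) (n₀ : ℕ) : IsGδ {y : ℕ → ℕ | U n₀ ⊆ ⋃ k, U (y k)} := by
  classical
  rcases (U n₀).eq_empty_or_nonempty with hemp | hne
  · have : {y : ℕ → ℕ | U n₀ ⊆ ⋃ k, U (y k)} = univ := by
      ext y; simp [hemp]
    rw [this]; exact IsGδ.univ
  by_contra hn
  have hC : MeasurableSet {y : ℕ → ℕ | U n₀ ⊆ ⋃ k, U (y k)} := by
    have h1 : {y : ℕ → ℕ | U n₀ ⊆ ⋃ k, U (y k)} = (fun y => (consSeq n₀ y, y)) ⁻¹' codeEq U := by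
      ext y
      exact mem_codeEq_cons.symm
    rw [h1]
    exact ((measurable_consSeq n₀).prodMk measurable_id) hE
  obtain ⟨b, hb1, hb2, hb3⟩ := hurewicz hC hn
  have hcov : ∀ c : ℕ → Bool, U n₀ ⊆ (⋃ m ∈ Acode U b (tree c c), U m) ↔
      ¬ ∃ α : ℕ → ℕ, ∀ i, pre α i ∈ tree c c := fun c =>
    cover_iff hU hb1 hb2 hb3 (fun s t hs ht => tree_suffix hs ht)
  -- measurability
  have hA : ∀ m, MeasurableSet {c : ℕ → Bool | m ∈ Acode U b (tree c c)} := by
    intro m
    have : {c : ℕ → Bool | m ∈ Acode U b (tree c c)} =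
        ⋃ (F : Finset ℕ) (J : ℕ) (_ : ∀ k ∈ F, U m ⊆ U k),
          ⋂ (t : List ℕ) (_ : ¬ ∃ j < J, b t j ∈ F), {c : ℕ → Bool | t ∈ tree c c}ᶜ := by
      ext c
      simp only [mem_ofPred_eq, mem_iUnion, mem_iInter, mem_compl_iff]
      constructor
      · rintro ⟨F, J, h1, h2⟩
        exact ⟨F, J, h2, fun t ht htT => ht (h1 t htT)⟩
      · rintro ⟨F, J, h2, h1⟩
        refine ⟨F, J, fun t ht => ?_, h2⟩
        by_contra hcon
        exact h1 t hcon ht
    rw [this]
    exact MeasurableSet.iUnion (fun F => MeasurableSet.iUnion (fun J =>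
      MeasurableSet.iUnion (fun _ => MeasurableSet.iInter (fun t =>
        MeasurableSet.iInter (fun _ => (measurable_tree t).compl)))))
  let yy : ℕ → (ℕ → Bool) → (ℕ → ℕ) := fun m c k => if k ∈ Acode U b (tree c c) then k else m
  have hyy : ∀ m, Measurable (yy m) := by
    intro m
    rw [measurable_pi_iff]
    intro k
    exact Measurable.ite (hA k) measurable_const measurable_const
  have hyU : ∀ m c, m ∈ Acode U b (tree c c) →
      (⋃ k, U (yy m c k)) = ⋃ k ∈ Acode U b (tree c c), U k := by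
    intro m c hm
    ext p
    simp only [mem_iUnion]
    constructor
    · rintro ⟨k, hk⟩
      by_cases h : k ∈ Acode U b (tree c c)
      · have : yy m c k = k := if_pos h
        rw [this] at hk
        exact ⟨k, h, hk⟩
      · have : yy m c k = m := if_neg h
        rw [this] at hk
        exact ⟨m, hm, hk⟩
    · rintro ⟨k, h, hk⟩
      refine ⟨k, ?_⟩
      have : yy m c k = k := if_pos h
      rw [this]
      exact hk
  have hS : MeasurableSet {c : ℕ → Bool | U n₀ ⊆ (⋃ m ∈ Acode U b (tree c c), U m)} := by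
    have : {c : ℕ → Bool | U n₀ ⊆ (⋃ m ∈ Acode U b (tree c c), U m)} =
        ⋃ m, {c : ℕ → Bool | m ∈ Acode U b (tree c c)} ∩
          (fun c => (consSeq n₀ (yy m c), yy m c)) ⁻¹' codeEq U := by
      ext c
      simp only [mem_ofPred_eq, mem_iUnion, mem_inter_iff, mem_preimage]
      constructor
      · intro h
        obtain ⟨p, hp⟩ := hne
        obtain ⟨m, hm, _⟩ := mem_iUnion₂.1 (h hp)
        refine ⟨m, hm, mem_codeEq_cons.2 ?_⟩
        rw [hyU m c hm]
        exact h
      · rintro ⟨m, hm, h⟩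
        rw [← hyU m c hm]
        exact mem_codeEq_cons.1 h
    rw [this]
    exact MeasurableSet.iUnion (fun m => (hA m).inter
      ((((measurable_consSeq n₀).comp (hyy m)).prodMk (hyy m)) hE))
  have hpolish : PolishSpace (ℕ → Bool) := {}
  obtain ⟨c, hc⟩ := exists_code hS.analyticSet
  have h1 := hc c
  have h2 := hcov c
  have h3 : (U n₀ ⊆ ⋃ m ∈ Acode U b (tree c c), U m) ↔ ∃ α : ℕ → ℕ, ∀ i, pre α i ∈ tree c c := h1
  rw [h2] at h3
  exact iff_not_self h3.symm

end Main

/-- **For every topological space `X` and every enumeration `U` of a basis of `X`, if the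
equivalence relation `E` (coding the same open set) is Borel, then it is `Π⁰₂`.** -/
theorem result {X : Type*} [TopologicalSpace X] (U : ℕ → Set X)
    (hU : TopologicalSpace.IsTopologicalBasis (Set.range U))
    (hE : MeasurableSet[borel ((ℕ → ℕ) × (ℕ → ℕ))] (codeEq U)) : IsGδ (codeEq U) := by
  have hE' : MeasurableSet (codeEq U) := by
    rw [← BorelSpace.measurable_eq (α := (ℕ → ℕ) × (ℕ → ℕ))] at hE
    exact hE
  have hC := isGδ_of_measurable hU hE'
  have heq : codeEq U = ⋂ (k : ℕ) (n : ℕ),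
      (({p : (ℕ → ℕ) × (ℕ → ℕ) | p.1 k ≠ n} ∪
        Prod.snd ⁻¹' {y : ℕ → ℕ | U n ⊆ ⋃ k, U (y k)}) ∩
      ({p : (ℕ → ℕ) × (ℕ → ℕ) | p.2 k ≠ n} ∪
        Prod.fst ⁻¹' {y : ℕ → ℕ | U n ⊆ ⋃ k, U (y k)})) := by
    ext ⟨x, y⟩
    simp only [codeEq, mem_ofPred_eq, mem_iInter, mem_inter_iff, mem_union, mem_preimage]
    constructor
    · intro h k n
      refine ⟨?_, ?_⟩
      · by_cases hk : x k = n
        · right
          rw [← h, ← hk]
          exact subset_iUnion (fun k => U (x k)) k
        · exact Or.inl hk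
      · by_cases hk : y k = n
        · right
          rw [h, ← hk]
          exact subset_iUnion (fun k => U (y k)) k
        · exact Or.inl hk
    · intro h
      apply Subset.antisymm
      · refine iUnion_subset (fun k => ?_)
        rcases (h k (x k)).1 with h1 | h1
        · exact absurd rfl h1
        · exact h1
      · refine iUnion_subset (fun k => ?_)
        rcases (h k (y k)).2 with h1 | h1
        · exact absurd rfl h1
        · exact h1
  rw [heq]
  refine IsGδ.iInter (fun k => IsGδ.iInter (fun n => ?_))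
  have h1 : IsOpen {p : (ℕ → ℕ) × (ℕ → ℕ) | p.1 k ≠ n} := by
    have : {p : (ℕ → ℕ) × (ℕ → ℕ) | p.1 k ≠ n} = (fun p => p.1 k) ⁻¹' {n}ᶜ := rfl
    rw [this]
    exact (isOpen_discrete _).preimage ((continuous_apply k).comp continuous_fst)
  have h2 : IsOpen {p : (ℕ → ℕ) × (ℕ → ℕ) | p.2 k ≠ n} := by
    have : {p : (ℕ → ℕ) × (ℕ → ℕ) | p.2 k ≠ n} = (fun p => p.2 k) ⁻¹' {n}ᶜ := rfl
    rw [this]
    exact (isOpen_discrete _).preimage ((continuous_apply k).comp continuous_snd)
  exact (h1.isGδ.union ((hC n).preimage continuous_snd)).inter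
    (h2.isGδ.union ((hC n).preimage continuous_fst))

end Pool.Agent.Results.MP_e9e8de_lc.OpenCodes
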